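import Mathlib

set_option autoImplicit false

namespace Pool.Agent.Results.MP_53e992_co.No

open Cardinal Set Classical

/-- every subset has a small cofinal and coinitial family -/
def Sh {X : Type} (r : X → X → Prop) (R : Set X) : Prop :=
  ∀ S ⊆ R, ∃ (J : Type) (t : J → X), #J ≤ 𝔠 ∧ (∀ j, t j ∈ S) ∧
    ∀ x ∈ S, (∃ j, r x (t j)) ∧ ∃ j, r (t j) x

theorem Sh.map {X Y : Type} {r : X → X → Prop} {s : Y → Y → Prop} {R : Set X} {R' : Set Y}
    (h : Y → X) (H : Sh r R) (h1 : ∀ y ∈ R', h y ∈ R)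
    (h2 : ∀ y ∈ R', ∀ z ∈ R', r (h y) (h z) → s y z) : Sh s R' := by
  intro S hS
  obtain ⟨J, t, a, b, c⟩ := H (h '' S) (by rintro _ ⟨y, e, rfl⟩; exact h1 y (hS e))
  choose u u1 u2 using b
  refine ⟨J, u, a, u1, fun x e => ?_⟩
  obtain ⟨⟨i, hi⟩, j, hj⟩ := c _ ⟨x, e, rfl⟩
  exact ⟨⟨i, h2 _ (hS e) _ (hS (u1 i)) (u2 i ▸ hi)⟩, j, h2 _ (hS (u1 j)) _ (hS e) (u2 j ▸ hj)⟩

theorem sig {J : Type} (K : J → Type) (hJ : #J ≤ 𝔠) (h : ∀ j, #(K j) ≤ 𝔠) :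
    #(Σ j, K j) ≤ 𝔠 := by
  rw [mk_sigma]
  refine (sum_le_sum _ (fun _ => 𝔠) h).trans ?_
  rw [sum_const']
  exact (mul_le_mul_left hJ _).trans (by simp)

theorem Sh.iUnion {X : Type} {r : X → X → Prop} (J : Type) (F : J → Set X) (hJ : #J ≤ 𝔠)
    (H : ∀ j, Sh r (F j)) : Sh r (⋃ j, F j) := by
  intro S hS
  choose K t a b c using fun j => H j (S ∩ F j) inter_subset_right
  refine ⟨Σ j, K j, fun p => t p.1 p.2, sig K hJ a, fun p => (b _ _).1, fun x e => ?_⟩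
  obtain ⟨j, hj⟩ := mem_iUnion.1 (hS e)
  obtain ⟨⟨i, hi⟩, k, hk⟩ := c j x ⟨e, hj⟩
  exact ⟨⟨⟨j, i⟩, hi⟩, ⟨j, k⟩, hk⟩

theorem Sh.union {X : Type} {r : X → X → Prop} {A B : Set X} (a : Sh r A) (b : Sh r B) :
    Sh r (A ∪ B) := by
  rw [union_eq_iUnion]
  exact Sh.iUnion _ _ ((mk_le_aleph0).trans aleph0_le_continuum) fun i => by cases i <;> simpa

theorem recur {I X : Type} [LinearOrder I] [WellFoundedLT I] (hI : ∀ a : I, #(Iio a) ≤ 𝔠)
    (P : X → X → Prop) (Sm : Set X → Prop) (Q : I → Set X → Prop) (s : Set X)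
    (hS : ∀ (J : Type) (F : J → Set X), #J ≤ 𝔠 → (∀ j, Sm (F j)) → Sm (⋃ j, F j))
    (hs : Sm s) (hp : ∀ p ∈ s, ∀ q ∈ s, P p q)
    (hQ : ∀ a U, Sm U ∧ (∀ p ∈ U, ∀ q ∈ U, P p q) →
      ∃ R, (Sm R ∧ ∀ p ∈ R, ∀ q ∈ R, P p q) ∧ U ⊆ R ∧ Q a R) :
    ∃ R : I → Set X, (∀ a, Sm (R a) ∧ s ⊆ R a ∧ Q a (R a)) ∧
      ∀ a b, ∀ p ∈ R a, ∀ q ∈ R b, P p q := by
  choose! e he using hQ
  let R : I → Set X := wellFounded_lt.fix fun a ih =>
    e a (⋃ j : Option (Iio a), j.elim s fun b => ih b.1 b.2)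
  let U : I → Set X := fun a => ⋃ j : Option (Iio a), j.elim s fun b => R b.1
  have hR : ∀ a, R a = e a (U a) := fun a => WellFounded.fix_eq _ _ _
  have u1 : ∀ a, s ⊆ U a := fun a x h => mem_iUnion.2 ⟨none, h⟩
  have u2 : ∀ a, ∀ b < a, R b ⊆ U a := fun a b h x k => mem_iUnion.2 ⟨some ⟨b, h⟩, k⟩
  have H : ∀ a, (Sm (R a) ∧ ∀ p ∈ R a, ∀ q ∈ R a, P p q) ∧ U a ⊆ R a ∧ Q a (R a) := by
    intro a
    induction a using WellFoundedLT.induction with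
    | ind a ih =>
      rw [hR]
      refine he a _ ⟨hS _ _ ?_ ?_, fun p h q k => ?_⟩
      · rw [mk_option]
        exact add_le_of_le aleph0_le_continuum (hI a) (one_le_aleph0.trans aleph0_le_continuum)
      · rintro (_ | b)
        exacts [hs, (ih b b.2).1.1]
      obtain ⟨_ | b, h⟩ := mem_iUnion.1 h <;> obtain ⟨_ | c, k⟩ := mem_iUnion.1 k
      · exact hp p h q k
      · exact (ih c c.2).1.2 p ((ih c c.2).2.1 (u1 _ h)) q k
      · exact (ih b b.2).1.2 p h q ((ih b b.2).2.1 (u1 _ k))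
      rcases lt_trichotomy b.1 c.1 with l | l | l
      · exact (ih c c.2).1.2 p ((ih c c.2).2.1 (u2 _ _ l h)) q k
      · exact (ih c c.2).1.2 p (l ▸ h) q k
      · exact (ih b b.2).1.2 p h q ((ih b b.2).2.1 (u2 _ _ l k))
  refine ⟨R, fun a => ⟨(H a).1.1, (u1 a).trans (H a).2.1, (H a).2.2⟩, fun b c p h q k => ?_⟩
  rcases lt_trichotomy b c with l | l | l
  · exact (H c).1.2 p ((H c).2.1 (u2 _ _ l h)) q k
  · exact (H c).1.2 p (l ▸ h) q k
  · exact (H b).1.2 p h q ((H b).2.1 (u2 _ _ l k))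

/-- consistency of a cut -/
def Cut {L : Type} [LinearOrder L] (R : Set (L × Bool)) : Prop :=
  ∀ p ∈ R, ∀ q ∈ R, p.2 = true → q.2 = false → p.1 < q.1

/-- the points inside a cut -/
def Reg {L : Type} [LinearOrder L] (R : Set (L × Bool)) : Set L :=
  {x | ∀ p ∈ R, (p.2 = true → p.1 < x) ∧ (p.2 = false → x < p.1)}

/-- a set meeting every small subcut -/
def Den {L : Type} [LinearOrder L] (A : Set L) (R : Set (L × Bool)) : Prop :=
  ∀ R', R ⊆ R' → #R' ≤ 𝔠 → Cut R' → ∃ x ∈ Reg R', x ∈ A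

theorem step1 {L K : Type} [LinearOrder L] (hK : #K ≤ 𝔠) (c : L → K) :
    ∃ R : Set (L × Bool), #R ≤ 𝔠 ∧ Cut R ∧ ∀ x ∈ Reg R, Den {y | c y = c x} R := by
  obtain ⟨_, _⟩ := exists_wellFoundedLT K
  have hS : ∀ (J : Type) (F : J → Set (L × Bool)), #J ≤ 𝔠 → (∀ j, #(F j) ≤ 𝔠) →
      #(⋃ j, F j) ≤ 𝔠 := fun J F a b => mk_iUnion_le_sum_mk.trans (by
    rw [← mk_sigma]
    exact sig _ a b)
  obtain ⟨R, h1, h2⟩ := recur (I := K) (fun a => (mk_set_le _).trans hK)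
    (fun p q : L × Bool => p.2 = true → q.2 = false → p.1 < q.1) (fun R => #R ≤ 𝔠)
    (fun k R => Den {y | c y = k} R ∨ ∀ x ∈ Reg R, c x ≠ k) ∅ hS (by simp) (by simp)
    fun k U h => by
      by_cases d : Den {y | c y = k} U
      · exact ⟨U, h, subset_rfl, .inl d⟩
      simp only [Den, not_forall, not_exists, not_and] at d
      obtain ⟨R, a, b, c, d⟩ := d
      exact ⟨R, ⟨b, c⟩, a, .inr d⟩
  refine ⟨⋃ k, R k, hS _ _ hK fun k => (h1 k).1, fun p h q k => ?_, fun x hx => ?_⟩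
  · obtain ⟨a, h⟩ := mem_iUnion.1 h
    obtain ⟨b, k⟩ := mem_iUnion.1 k
    exact h2 a b p h q k
  · rcases (h1 (c x)).2.2 with d | d
    · exact fun R' h => d R' ((subset_iUnion R _).trans h)
    · exact absurd rfl (d x fun p h => hx p (subset_iUnion R _ h))

/-- compatibility of two pairs -/
def Cp {L K X : Type} [LinearOrder L] (c : L → K) (C : Set L) (f g : X → L) (p q : X) : Prop :=
  (f p < f q ↔ g p < g q) ∧ c (f p) = c (g p) ∧ f p ∈ C ∧ g p ∈ C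

theorem ext {L K X : Type} [LinearOrder L] (c : L → K) (R0 : Set (L × Bool)) (h0 : #R0 ≤ 𝔠)
    (h1 : Cut R0) (h2 : ∀ x ∈ Reg R0, Den {y | c y = c x} R0) (f g : X → L)
    (hX : ∀ x y, ∃ p, f p = x ∧ g p = y) (D : Set L) (hD : Sh (· ≤ ·) D) (U : Set X)
    (u1 : Sh (fun p q => f p ≤ f q) U) (u2 : ∀ p ∈ U, ∀ q ∈ U, Cp c (Reg R0) f g p q) :
    ∃ R, (Sh (fun p q => f p ≤ f q) R ∧ ∀ p ∈ R, ∀ q ∈ R, Cp c (Reg R0) f g p q) ∧ U ⊆ R ∧
      ∀ x ∈ D, x ∈ Reg R0 → ∃ p ∈ R, f p = x := by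
  obtain ⟨R, r1, r2⟩ := zorn_subset_nonempty
    {R | (∀ p ∈ R, ∀ q ∈ R, Cp c (Reg R0) f g p q) ∧ R ⊆ U ∪ f ⁻¹' D} (fun C a b _ =>
      ⟨⋃₀ C, ⟨fun p ⟨A, h, k⟩ q ⟨B, h', k'⟩ => (b.total h h').elim
        (fun e => (a h').1 p (e k) q k') fun e => (a h).1 p k q (e k'),
        fun p ⟨A, h, k⟩ => (a h).2 k⟩, fun A h => subset_sUnion_of_mem h⟩) U ⟨u2, subset_union_left⟩
  have r3 := r2.prop.1
  have s : Sh (fun p q => f p ≤ f q) R :=
    (u1.union (hD.map f (fun _ h => h) fun _ _ _ _ h => h)).map id r2.prop.2 fun _ _ _ _ h => h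
  refine ⟨R, ⟨s, r3⟩, r1, fun x d hx => ?_⟩
  by_contra n
  push Not at n
  obtain ⟨J, t, a1, a2, a3⟩ := s {p ∈ R | f p < x} (sep_subset _ _)
  obtain ⟨J', t', b1, b2, b3⟩ := s {p ∈ R | x < f p} (sep_subset _ _)
  have C : ∀ p ∈ R, g p ∈ Reg R0 := fun p h => (r3 p h p h).2.2.2
  obtain ⟨y, y1, y2⟩ := h2 x hx (R0 ∪ (range (fun j => (g (t j), true)) ∪
      range fun j => (g (t' j), false))) subset_union_left
    ((mk_union_le _ _).trans (add_le_of_le aleph0_le_continuum h0 ((mk_union_le _ _).trans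
      (add_le_of_le aleph0_le_continuum (mk_range_le.trans a1) (mk_range_le.trans b1))))) (by
    rintro p (h | ⟨i, rfl⟩ | ⟨i, rfl⟩) q (k | ⟨j, rfl⟩ | ⟨j, rfl⟩) e e'
    · exact h1 p h q k e e'
    · cases e'
    · exact (C _ (b2 j).1 p h).1 e
    · exact (C _ (a2 i).1 q k).2 e'
    · cases e'
    · exact (r3 _ (a2 i).1 _ (b2 j).1).1.1 ((a2 i).2.trans (b2 j).2)
    all_goals cases e)
  have l1 : ∀ p ∈ R, f p < x → g p < y := fun p h e => by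
    obtain ⟨j, k⟩ := (a3 p ⟨h, e⟩).1
    exact lt_of_le_of_lt (not_lt.1 fun z => not_lt.2 k ((r3 _ (a2 j).1 p h).1.2 z))
      ((y1 _ (.inr (.inl ⟨j, rfl⟩))).1 rfl)
  have l2 : ∀ p ∈ R, x < f p → y < g p := fun p h e => by
    obtain ⟨j, k⟩ := (b3 p ⟨h, e⟩).2
    exact lt_of_lt_of_le ((y1 _ (.inr (.inr ⟨j, rfl⟩))).2 rfl)
      (not_lt.1 fun z => not_lt.2 k ((r3 p h _ (b2 j).1).1.2 z))
  obtain ⟨z, rfl, rfl⟩ := hX x y
  have y3 : g z ∈ Reg R0 := fun p h => y1 p (.inl h)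
  refine n z (r2.le_of_ge (y := insert z R) ⟨?_, insert_subset (.inr d) r2.prop.2⟩
    (subset_insert _ _) (mem_insert _ _)) rfl
  rintro p (rfl | h) q (rfl | k)
  · exact ⟨by simp, y2.symm, hx, y3⟩
  · exact ⟨⟨l2 q k, fun e => ((n q k).lt_or_gt).resolve_left fun i => (l1 q k i).not_gt e⟩,
      y2.symm, hx, y3⟩
  · exact ⟨⟨l1 p h, fun e => ((n p h).lt_or_gt).resolve_right fun i => (l2 p h i).not_gt e⟩,
      (r3 p h p h).2⟩
  · exact r3 p h q k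

theorem main {L W K : Type} [LinearOrder L] [LinearOrder W] [WellFoundedLT W] [Nonempty W]
    (hW : ∀ a : W, #(Iio a) ≤ 𝔠) (hK : #K ≤ 𝔠) (D : W → Set L) (hD : ∀ a, Sh (· ≤ ·) (D a))
    (hL : ∀ x, ∃ a, x ∈ D a) (sat : Den (univ : Set L) ∅) (c : L → K) :
    ∃ φ : L ≃o L, (∃ x, φ x ≠ x) ∧ ∀ x, c (φ x) = c x := by
  obtain ⟨R0, h0, h1, h2⟩ := step1 hK c
  obtain ⟨x0, x1, -⟩ := sat R0 (empty_subset _) h0 h1
  obtain ⟨y0, y1, y2⟩ := h2 x0 x1 (insert (x0, true) R0) (subset_insert _ _)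
    (mk_insert_le.trans (add_le_of_le aleph0_le_continuum h0
      (one_le_aleph0.trans aleph0_le_continuum))) (by
    rintro p (rfl | h) q (rfl | k) e e'
    · cases e'
    · exact (x1 q k).2 e'
    · cases e'
    · exact h1 p h q k e e')
  have sw : ∀ {f g : L × L → L} {U : Set (L × L)}, Sh (fun p q => f p ≤ f q) U ∧
      (∀ p ∈ U, ∀ q ∈ U, Cp c (Reg R0) f g p q) → Sh (fun p q => g p ≤ g q) U ∧
      ∀ p ∈ U, ∀ q ∈ U, Cp c (Reg R0) g f p q := fun h =>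
    ⟨h.1.map id (fun _ a => a) fun p a q b e => not_lt.1 fun z => not_lt.2 e ((h.2 q b p a).1.2 z),
      fun p a q b => have k := h.2 p a q b; ⟨k.1.symm, k.2.1.symm, k.2.2.2, k.2.2.1⟩⟩
  obtain ⟨R, r1, r2⟩ := recur hW (Cp c (Reg R0) Prod.fst Prod.snd)
    (Sh fun p q : L × L => p.1 ≤ q.1)
    (fun a R => ∀ x ∈ D a, x ∈ Reg R0 → (∃ p ∈ R, p.1 = x) ∧ ∃ p ∈ R, p.2 = x) {(x0, y0)}
    Sh.iUnion (fun S h => ⟨S, (↑), (mk_le_mk_of_subset h).trans (by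
        simpa using one_le_aleph0.trans aleph0_le_continuum), fun j => j.2,
      fun x e => ⟨⟨⟨x, e⟩, le_rfl⟩, ⟨x, e⟩, le_rfl⟩⟩)
    (by
      rintro _ rfl _ rfl
      exact ⟨by simp, y2.symm, x1, fun p h => y1 p (.inr h)⟩)
    fun a U h => by
      obtain ⟨A, a1, a2, a3⟩ := ext c R0 h0 h1 h2 Prod.fst Prod.snd
        (fun x y => ⟨(x, y), rfl, rfl⟩) _ (hD a) U h.1 h.2
      obtain ⟨B, b1, b2, b3⟩ := ext c R0 h0 h1 h2 Prod.snd Prod.fst
        (fun x y => ⟨(y, x), rfl, rfl⟩) _ (hD a) A (sw a1).1 (sw a1).2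
      exact ⟨B, sw b1, a2.trans b2, fun x d e =>
        ⟨(a3 x d e).imp fun p k => ⟨b2 k.1, k.2⟩, b3 x d e⟩⟩
  let ρ : L → L → Prop := fun x y => (∃ a, (x, y) ∈ R a) ∨ (x ∉ Reg R0 ∧ x = y)
  have cv : ∀ x ∉ Reg R0, ∀ u ∈ Reg R0, ∀ v ∈ Reg R0, (x < u ↔ x < v) ∧ (u < x ↔ v < x) := by
    intro x hx u hu v hv
    simp only [Reg, mem_ofPred_eq, not_forall] at hx
    obtain ⟨p, h, k⟩ := hx
    have := hu p h
    have := hv p h
    cases e : p.2 <;> simp only [e] at * <;> grind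
  have m : ∀ x y u v, ρ x y → ρ u v → (x < u ↔ y < v) := by
    rintro x y u v (⟨a, h⟩ | ⟨h, rfl⟩) (⟨b, k⟩ | ⟨k, rfl⟩)
    · exact (r2 a b _ h _ k).1
    · exact (cv u k _ (r2 a a _ h _ h).2.2.1 _ (r2 a a _ h _ h).2.2.2).2
    · exact (cv x h _ (r2 b b _ k _ k).2.2.1 _ (r2 b b _ k _ k).2.2.2).1
    · rfl
  have t : ∀ x, (∃ y, ρ x y) ∧ ∃ y, ρ y x := fun x => by
    by_cases h : x ∈ Reg R0
    · obtain ⟨a, k⟩ := hL x
      obtain ⟨⟨p, p1, rfl⟩, q, q1, q2⟩ := (r1 a).2.2 x k h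
      exact ⟨⟨p.2, .inl ⟨a, p1⟩⟩, q.1, .inl ⟨a, q2 ▸ q1⟩⟩
    · exact ⟨⟨x, .inr ⟨h, rfl⟩⟩, x, .inr ⟨h, rfl⟩⟩
  choose φ hφ using fun x => (t x).1
  have un : ∀ x y, ρ x y → φ x = y := fun x y h => le_antisymm
    (not_lt.1 fun e => lt_irrefl _ ((m _ _ _ _ h (hφ x)).2 e))
    (not_lt.1 fun e => lt_irrefl _ ((m _ _ _ _ (hφ x) h).2 e))
  refine ⟨StrictMono.orderIsoOfSurjective φ (fun x y e => (m _ _ _ _ (hφ x) (hφ y)).1 e)
    fun y => (t y).2.imp fun x => un x y, ⟨x0, ?_⟩, fun x => ?_⟩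
  · change φ x0 ≠ x0
    rw [un x0 y0 (.inl ⟨Classical.arbitrary W, (r1 _).2.1 rfl⟩)]
    exact ((y1 _ (.inl rfl)).1 rfl).ne'
  · change c (φ x) = c x
    rcases hφ x with ⟨a, h⟩ | h
    · exact (r2 a a _ h _ h).2.1.symm
    · rw [← h.2]

/-- the successor cardinal of the continuum as a well-order -/
abbrev W : Type := (Order.succ 𝔠).ord.ToType

theorem hW (a : W) : #(Iio a) ≤ 𝔠 := Order.lt_succ_iff.1 (by simpa using mk_Iio_lt a (by simp))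

theorem bd (J : Type) (h : #J ≤ 𝔠) (t : J → W) : ∃ a, ∀ j, t j < a := by
  by_contra n
  push Not at n
  have : #(⋃ j, Iic (t j)) ≤ 𝔠 := mk_iUnion_le_sum_mk.trans (by
    rw [← mk_sigma]
    refine sig _ h fun j => ?_
    rw [← Iio_insert]
    exact mk_insert_le.trans (add_le_of_le aleph0_le_continuum (hW _)
      (one_le_aleph0.trans aleph0_le_continuum)))
  rw [show ⋃ j, Iic (t j) = Set.univ from eq_univ_of_forall fun a => mem_iUnion.2 (n a), mk_univ,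
    mk_ord_toType] at this
  exact (Order.lt_succ _).not_ge this

/-- eventually constant ternary sequences, ordered lexicographically -/
abbrev L : Type := {f : Lex (W → Fin 3) // ∃ a, ∀ b, a ≤ b → f b = 1}

theorem fd (x y : W → Fin 3) (i : W) (h : x i ≠ y i) :
    ∃ k ≤ i, x k ≠ y k ∧ ∀ j < k, x j = y j := by
  obtain ⟨k, a, b⟩ := wellFounded_lt.has_min {k | x k ≠ y k} ⟨i, h⟩
  exact ⟨k, not_lt.1 (b i h), a, fun j e => by_contra fun n => b j n e⟩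

theorem cof (r : Fin 3 → Fin 3 → Prop) (hr : ∀ u v, u ≠ v ↔ r u v ∨ r v u) (a : W) (S : Set L)
    (hS : ∀ x ∈ S, ∀ b, a ≤ b → x.1 b = 1) : ∃ (J : Type) (t : J → L), #J ≤ 𝔠 ∧ (∀ j, t j ∈ S) ∧
      ∀ x ∈ S, ∃ j, x = t j ∨ ∃ i, (∀ k < i, x.1 k = (t j).1 k) ∧ r (x.1 i) ((t j).1 i) := by
  let B : L → Set W := fun x => {i | ∃ y ∈ S, (∀ k < i, x.1 k = y.1 k) ∧ r (x.1 i) (y.1 i)}
  by_cases h : ∃ x ∈ S, B x = ∅
  · obtain ⟨x, x1, x2⟩ := h
    refine ⟨Unit, fun _ => x, mk_le_aleph0.trans aleph0_le_continuum, fun _ => x1,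
      fun y e => ⟨(), or_iff_not_imp_left.2 fun n => ?_⟩⟩
    obtain ⟨i, hi⟩ := Function.ne_iff.1 (show (y.1 : W → Fin 3) ≠ x.1 from Subtype.coe_ne_coe.2 n)
    obtain ⟨k, -, k1, k2⟩ := fd _ _ i hi
    refine ⟨k, k2, ((hr _ _).1 k1).resolve_right fun z => ?_⟩
    exact (x2 ▸ (⟨y, e, fun j l => (k2 j l).symm, z⟩ : k ∈ B x) : k ∈ (∅ : Set W))
  push Not at h
  let J := {p : Iio a × Fin 3 // ∃ x ∈ S, (p.1.1 ∈ B x ∧ ∀ k ∈ B x, ¬ k < p.1.1) ∧ x.1 p.1 = p.2}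
  choose u u1 u2 u3 using fun j : J => j.2
  choose t t1 t2 t3 using fun j : J => (u2 j).1
  refine ⟨J, t, (mk_subtype_le _).trans ?_, t1, fun x e => ?_⟩
  · rw [mk_prod, lift_id, lift_id]
    exact (mul_le_mul' (hW a) (mk_le_aleph0.trans aleph0_le_continuum)).trans (by simp)
  obtain ⟨i, i1, i2⟩ := wellFounded_lt.has_min _ (h x e)
  have : i < a := not_le.1 fun l => by
    obtain ⟨y, y1, -, y2⟩ := i1
    rw [hS x e i l, hS y y1 i l] at y2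
    exact (hr _ _).2 (.inl y2) rfl
  let j : J := ⟨(⟨i, this⟩, x.1 i), x, e, ⟨i1, i2⟩, rfl⟩
  refine ⟨j, .inr ⟨i, fun k l => Eq.trans (by_contra fun n => ?_) (t2 j k l), ?_⟩⟩
  · obtain ⟨k, k0, k1, k2⟩ := fd _ _ k n
    rcases (hr _ _).1 k1 with z | z
    · exact i2 k ⟨_, u1 j, k2, z⟩ (k0.trans_lt l)
    · exact (u2 j).2 k ⟨_, e, fun b c => (k2 b c).symm, z⟩ (k0.trans_lt l)
  · have := t3 j
    rwa [u3 j] at this

theorem hD (a : W) : Sh (· ≤ ·) {x : L | ∀ b, a ≤ b → x.1 b = 1} := by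
  intro S hS
  obtain ⟨J, t, a1, a2, a3⟩ := cof (· < ·) (fun _ _ => ne_iff_lt_or_gt) a S hS
  obtain ⟨K, u, b1, b2, b3⟩ := cof (· > ·) (fun _ _ => ne_iff_lt_or_gt.trans or_comm) a S hS
  refine ⟨J ⊕ K, Sum.elim t u, ?_, by rintro (j | j) <;> simp [*], fun x e => ⟨?_, ?_⟩⟩
  · rw [mk_sum, lift_id, lift_id]
    exact add_le_of_le aleph0_le_continuum a1 b1
  · obtain ⟨j, h | h⟩ := a3 x e
    exacts [⟨.inl j, h.le⟩, ⟨.inl j, le_of_lt h⟩]
  · obtain ⟨j, h | ⟨i, h, k⟩⟩ := b3 x e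
    exacts [⟨.inr j, h.ge⟩, ⟨.inr j, le_of_lt ⟨i, fun b c => (h b c).symm, k⟩⟩]

theorem sat : Den (univ : Set L) ∅ := by
  rintro R - h0 h1
  choose α hα using fun p : R => p.1.1.2
  obtain ⟨a, ha⟩ := bd R h0 α
  obtain ⟨a', ha'⟩ := bd Unit (mk_le_aleph0.trans aleph0_le_continuum) fun _ => a
  let T : Lex (W → Fin 3) → Fin 3 → L := fun s v =>
    ⟨toLex fun b => if b < a then s b else if b = a then v else 1, a', fun b e => by
      have := (ha' ()).trans_le e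
      simp [this.not_gt, this.ne']⟩
  have t1 : ∀ p ∈ R, T p.1.1 1 = p.1 := fun p h => Subtype.ext (funext fun b => by
    by_cases e : b < a
    · simp [T, e]
    · simpa [T, e] using (hα ⟨p, h⟩ b ((ha _).le.trans (not_lt.1 e))).symm)
  have t2 : ∀ x y v w, T x 1 < T y 1 → T x v < T y w := by
    rintro x y v w ⟨i, h, k⟩
    have : i < a := by
      by_contra e
      simp [T, e] at k
    exact ⟨i, fun j l => by simpa [T, l.trans this] using h j l, by simpa [T, this] using k⟩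
  have t3 : ∀ x y, x ≤ y → T x 1 ≤ T y 1 := fun x y h => not_lt.1 fun ⟨i, k, l⟩ => by
    have : i < a := by
      by_contra e
      simp [T, e] at l
    exact h.not_gt ⟨i, fun j m => by simpa [T, m.trans this] using k j m,
      by simpa [T, this] using l⟩
  have t4 : ∀ x v w, v < w → T x v < T x w := fun x v w h =>
    ⟨a, fun j l => by simp [T, l], by simpa [T] using h⟩
  let s := sSup {x : Lex (W → Fin 3) | ∃ p ∈ R, p.2 = true ∧ p.1.1 = x}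
  have s1 : ∀ p ∈ R, p.2 = true → p.1 ≤ T s 1 := fun p h e =>
    t1 p h ▸ t3 _ _ (le_sSup ⟨p, h, e, rfl⟩)
  have s2 : ∀ p ∈ R, p.2 = false → T s 1 ≤ p.1 := fun p h e =>
    t1 p h ▸ t3 _ _ (sSup_le fun x ⟨q, k, l, m⟩ => m ▸ (h1 q k p h l e).le)
  by_cases h : ∃ p ∈ R, p.2 = false ∧ p.1 = T s 1
  · obtain ⟨q, q1, q2, q3⟩ := h
    exact ⟨T s 0, fun p k => ⟨fun e => t1 p k ▸ t2 _ _ _ _ ((t1 p k).symm ▸ q3 ▸ h1 p k q q1 e q2),
      fun e => (t4 s 0 1 (by decide)).trans_le (s2 p k e)⟩, trivial⟩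
  · exact ⟨T s 2, fun p k => ⟨fun e => (s1 p k e).trans_lt (t4 s 1 2 (by decide)),
      fun e => t1 p k ▸ t2 _ _ _ _ ((t1 p k).symm ▸ (s2 p k e).lt_of_ne fun z =>
        h ⟨p, k, e, z.symm⟩)⟩, trivial⟩

theorem above (Z : Set L) (h : #Z ≤ 𝔠) (x : L) : ∃ z, x < z ∧ ∀ u ∈ Z, x < u → z < u := by
  obtain ⟨z, hz, -⟩ := sat (insert (x, true) ((fun u => (u, false)) '' {u ∈ Z | x < u}))
    (empty_subset _) (mk_insert_le.trans (add_le_of_le aleph0_le_continuum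
      (mk_image_le.trans ((mk_le_mk_of_subset (sep_subset _ _)).trans h))
      (one_le_aleph0.trans aleph0_le_continuum))) (by
    rintro p (rfl | ⟨u, h, rfl⟩) q (rfl | ⟨v, k, rfl⟩) e e'
    · cases e'
    · exact k.2
    all_goals cases e)
  exact ⟨z, (hz _ (.inl rfl)).1 rfl, fun u a b => (hz _ (.inr ⟨u, ⟨a, b⟩, rfl⟩)).2 rfl⟩

theorem below (x : L) : ∃ z, z < x := by
  obtain ⟨z, hz, -⟩ := sat {(x, false)} (empty_subset _)
    (by simpa using one_le_aleph0.trans aleph0_le_continuum) (by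
      rintro _ rfl _ rfl e
      cases e)
  exact ⟨z, (hz _ rfl).2 rfl⟩

/-- the half graph of the order with a ray attached at every vertex -/
def G : SimpleGraph (L × ℤ) :=
  .fromRel fun u v => v.2 = u.2 + 1 ∧ (u.1 = v.1 ∨ (u.2 = 0 ∧ u.1 ≤ v.1))

theorem adj (x y : L) (m n : ℤ) : G.Adj (x, m) (y, n) ↔
    (n = m + 1 ∧ (x = y ∨ (m = 0 ∧ x ≤ y))) ∨ (m = n + 1 ∧ (y = x ∨ (n = 0 ∧ y ≤ x))) := by
  simp only [G, SimpleGraph.fromRel_adj, and_iff_right_iff_imp, ne_eq, Prod.mk.injEq]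
  omega

theorem motion (φ : G ≃g G) (h : #{v | φ v ≠ v} ≤ 𝔠) (u : L × ℤ) : φ u = u := by
  have A : ∀ u v, φ v = v → (G.Adj (φ u) v ↔ G.Adj u v) := fun u v e => by
    rw [← φ.map_adj_iff (v := u), e]
  have B : ∀ x y, ∃ z, x < z ∧ z ≠ y ∧ (x < y → z < y) ∧ φ (z, 1) = (z, 1) := fun x y => by
    obtain ⟨z, a, b⟩ := above (insert y (Prod.fst '' {v | φ v ≠ v})) (mk_insert_le.trans
      (add_le_of_le aleph0_le_continuum (mk_image_le.trans h)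
        (one_le_aleph0.trans aleph0_le_continuum))) x
    exact ⟨z, a, fun e => (b z (.inl e) a).false, b y (.inl rfl),
      by_contra fun e => (b z (.inr ⟨_, e, rfl⟩) a).false⟩
  have h0 : ∀ x, φ (x, 0) = (x, 0) := fun x => by
    obtain ⟨z, a, b, c, d⟩ := B x (φ (x, 0)).1
    obtain ⟨w, a', b', c', d'⟩ := B (φ (x, 0)).1 x
    have e := A (x, 0) _ d
    have e' := A (x, 0) _ d'
    generalize φ (x, 0) = v at *
    obtain ⟨y, n⟩ := v
    rw [adj, adj] at e e'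
    grind
  have h1 : ∀ x, φ (x, 1) = (x, 1) := fun x => by
    obtain ⟨z, a⟩ := below x
    have e := A (x, 1) _ (h0 x)
    have e' := A (x, 1) _ (h0 z)
    have e'' := A (x, 1) _ (h0 (φ (x, 1)).1)
    generalize φ (x, 1) = v at *
    obtain ⟨y, n⟩ := v
    rw [adj, adj] at e e' e''
    grind
  have H : ∀ k : ℕ, ∀ x n, -(k : ℤ) ≤ n → n ≤ k + 1 → φ (x, n) = (x, n) := by
    intro k
    induction k with
    | zero =>
      intro x n a b
      obtain rfl | rfl : n = 0 ∨ n = 1 := by omega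
      exacts [h0 x, h1 x]
    | succ k ih =>
      intro x n a b
      by_cases c : -(k : ℤ) ≤ (φ (x, n)).2 ∧ (φ (x, n)).2 ≤ k + 1
      · exact φ.injective (ih _ _ c.1 c.2)
      have e := ih x n
      have e1 := A (x, n) (x, -k) (ih _ _ (by omega) (by omega))
      have e2 := A (x, n) (x, k + 1) (ih _ _ (by omega) (by omega))
      generalize φ (x, n) = v at *
      obtain ⟨y, m⟩ := v
      rw [adj, adj] at e1 e2
      grind
  exact H u.2.natAbs u.1 u.2 (by omega) (by omega)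

theorem nd (S : Set (L × ℤ)) : ∃ φ : G ≃g G, φ ≠ SimpleGraph.Iso.refl ∧ φ '' S = S := by
  have : Nonempty W := ⟨(bd Empty (by simp) Empty.elim).choose⟩
  obtain ⟨φ, ⟨x, hx⟩, h⟩ := main hW (K := Set ℤ) (by simp) _ hD (fun x => x.2) sat
    fun x => {n | (x, n) ∈ S}
  let ψ : G ≃g G := ⟨φ.toEquiv.prodCongr (Equiv.refl ℤ), fun {u v} => by
    obtain ⟨x, m⟩ := u
    obtain ⟨y, n⟩ := v
    change G.Adj (φ x, m) (φ y, n) ↔ _
    simp [adj]⟩
  refine ⟨ψ, fun e => hx (congrArg (fun g : G ≃g G => (g (x, 0)).1) e), ?_⟩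
  have : ψ ⁻¹' S = S := Set.ext fun u => Set.ext_iff.1 (h u.1) u.2
  conv_lhs => rw [← this]
  exact image_preimage_eq S ψ.surjective

theorem result : ∃ (V : Type) (G : SimpleGraph V) (w : V) (m : Cardinal.{0}), ℵ₀ < m ∧
    G.Connected ∧
    (∀ y, ∃ x, G.Adj y x ∧ ∀ p : G.Walk x w, p.length = G.dist x w → y ∈ p.support) ∧
    IsLeast {k | ∃ φ : G ≃g G, φ ≠ SimpleGraph.Iso.refl ∧ k = #{v | φ v ≠ v}} m ∧
    (⨆ v, #(G.neighborSet v)) ≤ 2 ^ m ∧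
    ∀ S : Set V, ∃ φ : G ≃g G, φ ≠ SimpleGraph.Iso.refl ∧ φ '' S = S := by
  let x0 : L := ⟨toLex fun _ => 1, (bd Empty (by simp) Empty.elim).choose, fun _ _ => rfl⟩
  let K := {k | ∃ φ : G ≃g G, φ ≠ SimpleGraph.Iso.refl ∧ k = #{v | φ v ≠ v}}
  have k1 : sInf K ∈ K := csInf_mem ((nd ∅).elim fun φ h => ⟨_, φ, h.1, rfl⟩)
  have k2 : 𝔠 < sInf K := not_le.1 fun e => by
    obtain ⟨φ, a, b⟩ := k1
    exact a (RelIso.ext (motion φ (b ▸ e)))
  have r : ∀ x n, G.Reachable (x, n) (x, 0) := fun x n => by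
    induction n using Int.induction_on with
    | zero => rfl
    | succ n ih => exact (SimpleGraph.Adj.reachable (by simp [adj])).trans ih
    | pred n ih => exact (SimpleGraph.Adj.reachable (by simp [adj])).trans ih
  refine ⟨_, G, (x0, 0), sInf K, aleph0_lt_continuum.trans k2,
    @SimpleGraph.Connected.mk _ _ (fun ⟨x, m⟩ ⟨y, n⟩ => ?_) ⟨(x0, 0)⟩, fun ⟨x, n⟩ => ?_,
    ⟨k1, fun _ => csInf_le'⟩, ciSup_le' fun v => (mk_set_le _).trans ?_, nd⟩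
  · exact ((r x m).trans ((SimpleGraph.Adj.reachable (v := (max x y, 1)) (by simp [adj])).trans
      (SimpleGraph.Adj.reachable (by simp [adj])))).trans (r y n).symm
  · have : ∀ (z : L × ℤ) (S : Set (L × ℤ)), z ∈ S → (x0, 0) ∉ S →
        (∀ y m y' m', (y, m) ∈ S → (y', m') ∉ S → G.Adj (y, m) (y', m') → (y', m') = (x, n)) →
        ∀ p : G.Walk z (x0, 0), (x, n) ∈ p.support := fun z S a b c p => by
      obtain ⟨d, d1, d2, d3⟩ := p.exists_boundary_dart S a b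
      exact c _ _ _ _ d2 d3 d.adj ▸ p.dart_snd_mem_support_of_mem_darts d1
    by_cases h : n ≤ 0
    · refine ⟨(x, n - 1), by simp [adj], fun p _ => this _ {v | v.1 = x ∧ v.2 < n} (by simp)
        (by simp [h]) (fun y m y' m' a b c => ?_) p⟩
      simp only [adj, mem_ofPred_eq, not_and, Prod.mk.injEq] at a b c ⊢
      rcases c with ⟨c, rfl | d⟩ | ⟨c, rfl | d⟩ <;> (try have := b a.1) <;>
        first | omega | exact ⟨a.1, by omega⟩
    · refine ⟨(x, n + 1), by simp [adj], fun p _ => this _ {v | v.1 = x ∧ n < v.2} (by simp)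
        (by simp; omega) (fun y m y' m' a b c => ?_) p⟩
      simp only [adj, mem_ofPred_eq, not_and, Prod.mk.injEq] at a b c ⊢
      rcases c with ⟨c, rfl | d⟩ | ⟨c, rfl | d⟩ <;> (try have := b a.1) <;>
        first | omega | exact ⟨a.1, by omega⟩
  · have a : ℵ₀ ≤ sInf K := aleph0_le_continuum.trans k2.le
    have b : #L ≤ 2 ^ sInf K := (mk_subtype_le _).trans (by
      change #(W → Fin 3) ≤ _
      rw [← power_def, mk_ord_toType, ← power_self_eq a]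
      exact (power_le_power_left (by simp) (Order.succ_le_of_lt k2)).trans
        (power_le_power_right (mk_le_aleph0.trans a)))
    rw [mk_prod, lift_id, lift_id]
    exact mul_le_of_le (a.trans (cantor _).le) b (mk_le_aleph0.trans (a.trans (cantor _).le))

end Pool.Agent.Results.MP_53e992_co.No
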